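import Mathlib
import Pool.Agent.Helper669.OFormula

/-!
# `cov(M) ≤ |W| < 𝔡` in the forcing language

The forcing language is the one of `Pool.Agent.Helper669.Forcing`: a sentence is the set of the
conditions which force it, and named relations between `ℕ` and `ℕ` which are functions stand for
the elements of `ω^ω` of the extension.
-/

set_option autoImplicit false

namespace Pool.Agent.K3h61.SR

open Cardinal Pool.Agent.Helper669.Forcing

section Forcing

variable {P : Type} [Preorder P]

/-- The named functions `x` and `y` are eventually different: there is `N` such that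
`x n ≠ y n` for all `n ≥ N`. -/
def EvDiff (x y : ℕ → ℕ → Set P) : Set P :=
  fex fun N : ℕ => fall fun n : ℕ => fall fun _ : N ≤ n => fall fun a : ℕ =>
    fnot (fand (meets (x n a)) (meets (y n a)))

/-- For the named functions `x` and `y`: there is `N` such that `x n ≤ y n` for all `n ≥ N`. -/
def LeStar (x y : ℕ → ℕ → Set P) : Set P :=
  fex fun N : ℕ => fall fun n : ℕ => fall fun _ : N ≤ n => fall fun a : ℕ => fall fun b : ℕ =>
    fall fun _ : b < a => fnot (fand (meets (x n a)) (meets (y n b)))

variable (P) in
/-- There is a family of functions from `ω` to `ω`, indexed by `W`, such that every function from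
`ω` to `ω` is eventually different from some member of the family. -/
def HasEvDiffFamily (W : Type) : Set P :=
  fex fun F : W → ℕ → ℕ → Set P => fand (fall fun w => IsFun (F w))
    (fall fun g : ℕ → ℕ → Set P => fimp (IsFun g) (fex fun w => EvDiff (F w) g))

variable (P) in
/-- There is a dominating family of functions from `ω` to `ω` which is indexed by `W`. -/
def HasDominatingFamily (W : Type) : Set P :=
  fex fun D : W → ℕ → ℕ → Set P => fand (fall fun w => IsFun (D w))
    (fall fun f : ℕ → ℕ → Set P => fimp (IsFun f) (fex fun w => LeStar f (D w)))

variable (P) in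
/-- The sentence `PhiFor W`, in the forcing language. -/
def PhiHolds (W : Type) : Set P :=
  fand (HasEvDiffFamily P W) (fnot (HasDominatingFamily P W))

end Forcing

/-- There is a family of functions from `ω` to `ω`, indexed by `W`, such that every function from
`ω` to `ω` is eventually different from some member of the family; and there is no dominating
family indexed by `W`. -/
def PhiFor (W : Type) : Prop :=
  (∃ F : W → ℕ → ℕ, ∀ g : ℕ → ℕ, ∃ w, ∃ N, ∀ n, N ≤ n → F w n ≠ g n) ∧
  ¬ ∃ D : W → ℕ → ℕ, ∀ f : ℕ → ℕ, ∃ w, ∃ N, ∀ n, N ≤ n → f n ≤ D w n

end Pool.Agent.K3h61.SR
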