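import Mathlib
import Pool.Agent.Helper669.OMain
import Pool.Agent.W684.FM.Ambient
import Pool.Agent.K3h61.SR.Defs

/-!
# Blocks of Cohen reals, each followed by an eventually different real
-/

set_option autoImplicit false
set_option linter.unusedSectionVars false

namespace Pool.Agent.K3h61.SR

open Cardinal Ordinal Pool.Agent.Helper669.Iter Pool.Agent.Helper669.Forcing
  Pool.Agent.Helper669.OIter Pool.Agent.Helper669.ODefs Pool.Agent.Helper669.OSupp
  Pool.Agent.Helper669.OIdx Pool.Agent.Helper669.OCode Pool.Agent.Helper669.OCase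
  Pool.Agent.Helper669.OCov Pool.Agent.Helper669.OFormula Pool.Agent.Helper669.OMain

section Gen

variable {P : Type} [Preorder P]

theorem down_EvDiff (x y : ℕ → ℕ → Set P) : Down (EvDiff x y) := down_fex _

theorem down_LeStar (x y : ℕ → ℕ → Set P) : Down (LeStar x y) := down_fex _

end Gen

section General

variable {J : Type} [LinearOrder J] [WellFoundedLT J] {E : Set (WithTop J)}

/-- Late eventually different reals form a family as required. -/
theorem hasEvDiffFamily (hcof : ∀ S : Set J, S.Countable → ∃ b, ∀ s ∈ S, s < b) {Y : Type}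
    (g : Y → J) (hgE : ∀ y, (g y : WithTop J) ∈ E) (hg : ∀ b, ∃ y, b ≤ g y) (p : Cond E) :
    p ∈ HasEvDiffFamily (Cond E) Y := by
  refine mem_fex_of_mem (fun y => Gr E (g y)) ?_ ?_
  · exact down_fand (down_fall fun _ => down_IsFun _) (down_fall fun _ => down_fimp _ _)
  · refine ⟨fun y => isFun_Gr (g y) p, fun x => mem_fimp.2 fun q _ hq => ?_⟩
    obtain ⟨b, hb⟩ := eventually_different hcof x
    obtain ⟨y, hy⟩ := hg b
    obtain ⟨q', hq', h⟩ := hb (g y) hy (hgE y) q hq
    refine ⟨q', hq', mem_fex_of_mem y (down_EvDiff _ _) ?_⟩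
    refine mem_fex_of_mem (q.1.st (g y : WithTop J)).length
      (down_fall fun _ => down_fall fun _ => down_fall fun _ => down_fnot _) ?_
    intro n hn m r hr hr'
    obtain ⟨s, hs, hs'⟩ := exists_of_meets (down_Gr (g y) n m) hr'.1
    exact h n hn m s (hs.trans hr) hs' (down_meets _ _ hr'.2 s hs)

/-- the set of the conditions which decide that `z` is larger than the value at `n` of the
function named by `D`, or that `D` does not name a function -/
def Above (D : ℕ → ℕ → Set (Cond E)) (n z : ℕ) : Set (Cond E) :=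
  meets {p | p ∈ fnot (IsFun D) ∨ ∃ m < z, p ∈ meets (D n m)}

theorem reg_Above (D : ℕ → ℕ → Set (Cond E)) (n z : ℕ) : Reg (Above D n z) := reg_meets _

theorem above_dense (D : ℕ → ℕ → Set (Cond E)) (n : ℕ) (p : Cond E) :
    ∃ q ≤ p, ∃ k, ∀ z, k ≤ z → q ∈ Above D n z := by
  by_cases hp : p ∈ fnot (IsFun D)
  · exact ⟨p, le_rfl, 0, fun z _ => meets_of_mem (Or.inl hp)⟩
  · simp only [fnot, Set.mem_ofPred_eq, not_forall, not_not] at hp
    obtain ⟨q, hq, hfun⟩ := hp
    obtain ⟨r, hr, m, hm⟩ := IsFun.total hfun n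
    exact ⟨r, hr.trans hq, m + 1, fun z hz => meets_of_mem (Or.inr ⟨m, by omega, hm⟩)⟩

theorem above_lt {D : ℕ → ℕ → Set (Cond E)} {n z b : ℕ} {p : Cond E} (hp : p ∈ IsFun D)
    (h : p ∈ Above D n z) (hb : p ∈ meets (D n b)) : b < z := by
  obtain ⟨r, hr, s, hs, hrs⟩ := h p le_rfl
  rcases hs with hs | ⟨m, hm, hs⟩
  · exact absurd (down_IsFun D p hp r hr) (hs r hrs)
  · have := IsFun.unique (down_IsFun D p hp r hr) (down_meets _ _ hb r hr)
      (down_meets _ _ hs r hrs)
    omega

/-- A Cohen coordinate which is not used by the names `D w` is not dominated by any of them. -/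
theorem not_leStar (hfus : Fusion E) {c : J} (hcE : (c : WithTop J) ∉ E)
    {D : ℕ → ℕ → Set (Cond E)} {a : ℕ → ℕ → Set (Cond E)}
    (ha : ∀ n z, meets (a n z) = Above D n z)
    (hac : ∀ n z, ∀ p ∈ a n z, ∃ K : Set (WithTop J), p.1 ∈ VK E K ⊤ ∧ (c : WithTop J) ∉ K)
    {p : Cond E} (hp : p ∈ IsFun D) : p ∈ fnot (LeStar (Gr E c) D) := by
  intro q hq hle
  obtain ⟨r, hr, N, hN⟩ := mem_fex.1 hle q le_rfl
  obtain ⟨s, hs, hlen, -⟩ := push_long r c N
  set n := (s.1.st (c : WithTop J)).length with hn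
  obtain ⟨v, t, ht, htv⟩ := Pool.Agent.Helper669.OHit.hit hfus (ξ := (c : WithTop J)) le_rfl hcE
    (B := fun _ => Set.univ) (fun _ => ⟨fun _ _ _ _ => trivial, fun _ _ => trivial⟩)
    (fun _ _ => Iff.rfl) (a := a n) (hac n) (p₀ := resP s c) (below_resP s c)
    (fun k u _ => ⟨u, le_rfl, k, le_rfl, trivial⟩) (fun u _ => by
      obtain ⟨u', hu', k, hk⟩ := above_dense D n u
      refine ⟨u', hu', k, fun m hm w hw _ => ?_⟩
      have h0 := (reg_Above D n m).1 _ (hk m hm) _ hw
      rw [← ha] at h0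
      exact h0) s (le_resP s c)
  have h1 : Pool.Agent.Helper669.OHit.pushC s c v ≤ s := Pool.Agent.Helper669.OHit.pushC_le _ hcE v
  have h2 : Pool.Agent.Helper669.OHit.pushC s c v ∈ Gr E c n v := by
    have e1 : (Pool.Agent.Helper669.OHit.pushC s c v).1.st (c : WithTop J) = s.1.st c ++ [v] := push_st_self _ _ _
    refine ⟨?_, ?_⟩
    · rw [e1, List.length_append]; simp [hn]
    · rw [e1, List.getD_append_right _ _ _ _ (by rw [hn])]
      simp [hn]
  have htr : t ≤ r := ht.trans (h1.trans hs)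
  have htp : t ∈ IsFun D := down_IsFun D p hp t (htr.trans (hr.trans hq))
  obtain ⟨w, hw, b, hb⟩ := IsFun.total htp n
  have hlt : b < v := by
    rw [ha] at htv
    exact above_lt (down_IsFun D t htp w hw) ((reg_Above D n v).1 _ htv _ hw) hb
  refine hN n hlen.le v b hlt w (hw.trans htr) ⟨?_, hb⟩
  exact down_meets _ _ (meets_of_mem (down_Gr c n v _ h2 t ht)) w hw

end General

end Pool.Agent.K3h61.SR
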