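import Mathlib
import Pool.Agent.K3h61.SR.Force

/-!
# A forcing notion which forces `cov(M) ≤ |W| < 𝔡`, `|W| = ℵ₁`
-/

set_option autoImplicit false
set_option linter.unusedSectionVars false

namespace Pool.Agent.K3h61.SR

open Cardinal Ordinal Pool.Agent.Helper669.Iter Pool.Agent.Helper669.Forcing
  Pool.Agent.Helper669.OIter Pool.Agent.Helper669.ODefs Pool.Agent.Helper669.OSupp
  Pool.Agent.Helper669.OIdx Pool.Agent.Helper669.OCode Pool.Agent.Helper669.OCase
  Pool.Agent.Helper669.OCov Pool.Agent.Helper669.OFormula Pool.Agent.Helper669.OMain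

variable {K L : Type} [LinearOrder K] [WellFoundedLT K] [LinearOrder L] [WellFoundedLT L]

theorem not_hasDominatingFamily [Nonempty K] {W : Type} (hL : ℵ₀ < #L) (hW : #W < #L)
    (p : Cond (EE K L)) : p ∈ fnot (HasDominatingFamily (Cond (EE K L)) W) := by
  classical
  intro q _ hq
  obtain ⟨r, hr, D, hD1, hD2⟩ := mem_fex.1 hq q le_rfl
  choose a hac _ ha using fun (w : W) (n z : ℕ) =>
    exists_code (reg_Above (D w) n z) (loc_top _)
  choose Kp hKp hKp' using fun p : Cond (EE K L) => Pool.Agent.Helper669.OCount.exists_countable_support p.2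
  let S : Set (WithTop (Idx K L)) := ⋃ x : W × ℕ × ℕ, ⋃ p ∈ a x.1 x.2.1 x.2.2, Kp p
  let k0 : K := Classical.arbitrary K
  let ι : L → WithTop (Idx K L) := fun j => ((toLex (k0, (j : WithTop L)) : Idx K L) : WithTop _)
  have hι : Function.Injective ι := by
    intro j j' h
    have h1 := toLex.injective (WithTop.coe_injective h)
    exact WithTop.coe_injective (Prod.mk.injEq _ _ _ _ ▸ h1 :
      k0 = k0 ∧ (j : WithTop L) = (j' : WithTop L)).2
  obtain ⟨j, hj⟩ : ∃ j, ι j ∉ S := by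
    by_contra hcon
    push Not at hcon
    have h1 : #L ≤ #S := mk_le_of_injective (f := fun j => (⟨ι j, hcon j⟩ : S))
      fun j j' h => hι (congrArg Subtype.val h)
    have h2 : #S ≤ #(W × ℕ × ℕ) * ℵ₀ := by
      refine (mk_iUnion_le_sum_mk).trans ((sum_le_sum _ (fun _ => ℵ₀) fun x => ?_).trans ?_)
      · rw [le_aleph0_iff_set_countable]
        exact (hac _ _ _).biUnion fun p _ => hKp p
      · rw [sum_const']
    have h3 : #(W × ℕ × ℕ) * ℵ₀ < #L := by
      refine mul_lt_of_lt hL.le ?_ hL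
      rw [mk_prod]
      simp only [Cardinal.lift_id]
      exact mul_lt_of_lt hL.le hW ((mk_le_aleph0 (α := ℕ × ℕ)).trans_lt hL)
    exact absurd (h1.trans h2) (not_le.2 h3)
  set c : Idx K L := toLex (k0, (j : WithTop L)) with hc
  obtain ⟨s, hs, h1⟩ := mem_fimp.1 (hD2 (Gr (EE K L) c)) r le_rfl (isFun_Gr _ r)
  obtain ⟨t, ht, w, htw⟩ := mem_fex.1 h1 s le_rfl
  refine not_leStar (Pool.Agent.Helper669.OFusion.fusion _) (c := c) (coe_notMem_EE k0 j) (D := D w) (a := a w)
    (ha w) ?_ (down_IsFun _ _ (hD1 w) t (ht.trans hs)) t le_rfl htw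
  intro n z p hp
  refine ⟨Kp p, hKp' p, fun hmem => hj ?_⟩
  exact Set.mem_iUnion.2 ⟨(w, n, z), Set.mem_biUnion hp hmem⟩

theorem cond_CCC : CCC (Cond (EE K L)) := by
  intro S hS
  by_contra hcon
  have hcon' : ¬ Countable S := hcon
  obtain ⟨y, y', hne, r, h1, h2⟩ := cond_ccc (fun s : S => s.1) hcon'
  exact hne (Subtype.ext (hS y.1 y.2 y'.1 y'.2 ⟨r, h1, h2⟩))

theorem cardinalsPreserved_of_CCC {P : Type} [Preorder P] (hP : CCC P) (p : P) :
    p ∈ CardinalsPreserved.{0, 0} P := by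
  refine Pool.Agent.W684.FM.PCCC.cardinalsPreserved ?_ p
  intro A hA
  refine hP A fun x hx y hy hxy => ?_
  by_contra hne
  exact hA x hx y hy hne hxy

/-- Over an arbitrary ground model some ccc notion of forcing forces `PhiHolds`, for a set `W` of
cardinality `ℵ₁`. -/
theorem exists_forcing : ∃ (W P : Type) (_ : Preorder P), #W = ℵ₁ ∧ Nonempty P ∧ CCC P ∧
    ∀ p : P, p ∈ CardinalsPreserved.{0, 0} P ∧ p ∈ PhiHolds P W := by
  obtain ⟨K, _, _, hK, hIio, hbd⟩ := exists_orders (μ := ℵ₀) le_rfl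
  obtain ⟨L, _, _, hL, _⟩ := exists_orders (μ := Order.succ ℵ₀) (Order.le_succ _)
  have hKL : #K < #L := by rw [hK, hL]; exact Order.lt_succ _
  have hK1 : #K = ℵ₁ := by rw [hK, succ_aleph0]
  have hL0 : ℵ₀ < #L := (Order.lt_succ ℵ₀).trans (by rw [← hK]; exact hKL)
  have hcK : ∀ S : Set K, S.Countable → ∃ b, ∀ s ∈ S, s < b := fun S hS =>
    hbd S hS.le_aleph0
  have hne : Nonempty K := by
    rw [← mk_ne_zero_iff, hK1]
    exact (aleph_pos 1).ne'
  refine ⟨K, Cond (EE K L), inferInstance, hK1, inferInstance, cond_CCC, fun p =>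
    ⟨cardinalsPreserved_of_CCC cond_CCC p, ?_, not_hasDominatingFamily hL0 hKL p⟩⟩
  refine hasEvDiffFamily (E := EE K L) (hcof_idx hcK) (fun y : K => (toLex (y, (⊤ : WithTop L)) : Idx K L))
    (fun y => ⟨y, rfl⟩) (fun b => ⟨(ofLex b).1, ?_⟩) p
  rw [Prod.Lex.le_iff]
  exact Or.inr ⟨rfl, le_top⟩

end Pool.Agent.K3h61.SR
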